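import Pool.Agent.Helper30.U.Defs2

/-!
# MP_506470_co, modules U-D12, U-D13: `cliques_or` and `join_or`
-/

namespace SetHom
namespace Un

variable {V : Type} {G : SimpleGraph V}

/-- module U-D12: large cliques or bounded cliques. -/
theorem cliques_or (G : SimpleGraph V) : (∃ N, G.CliqueFree N) ∨
    ∀ n : ℕ, ∃ A : Finset V, Clq G A ∧ A.card = n := by
  by_cases h : ∃ N, G.CliqueFree N
  · exact Or.inl h
  · right
    intro n
    push Not at h
    have h1 := h n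
    unfold SimpleGraph.CliqueFree at h1
    push Not at h1
    obtain ⟨A, hA⟩ := h1
    refine ⟨A, ?_, hA.card_eq⟩
    intro x hx y hy hxy
    exact hA.isClique hx hy hxy

/-- Bipartite Ramsey for a clique and an independent set. -/
theorem d13_step (h : DI G) (n : ℕ) :
    (∃ K J : Finset V, Clq G K ∧ K.card = n ∧ Indep G J ∧ J.card = n ∧
      ∀ x ∈ K, ∀ y ∈ J, G.Adj x y) ∨
    (∃ K J : Finset V, Clq Gᶜ K ∧ K.card = n ∧ Indep Gᶜ J ∧ J.card = n ∧
      ∀ x ∈ K, ∀ y ∈ J, Gᶜ.Adj x y) := by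
  classical
  obtain ⟨K0, hK0, hK0c⟩ := h.cl (2 * n)
  obtain ⟨J0, hJ0, hJ0c⟩ := h.ind (2 ^ (2 * n) * n + 1)
  have hint : (K0 ∩ J0).card ≤ 1 := by
    rw [Finset.card_le_one]
    intro a ha b hb
    by_contra hab
    rw [Finset.mem_inter] at ha hb
    exact hJ0 a ha.2 b hb.2 (hK0 a ha.1 b hb.1 hab)
  have hJ1 : 2 ^ (2 * n) * n ≤ (J0 \ K0).card := by
    have := Finset.card_sdiff_add_card_inter J0 K0
    rw [Finset.inter_comm] at this
    omega
  obtain ⟨S, hS, hSn⟩ := Finset.exists_le_card_fiber_of_mul_le_card_of_maps_to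
    (s := J0 \ K0) (t := K0.powerset) (f := fun y => K0.filter (fun x => G.Adj x y)) (n := n)
    (fun y _ => Finset.mem_powerset.2 (Finset.filter_subset _ _))
    ⟨∅, Finset.empty_mem_powerset _⟩
    (by rw [Finset.card_powerset, hK0c]; exact hJ1)
  rw [Finset.mem_powerset] at hS
  obtain ⟨J, hJ, hJc⟩ := Finset.exists_subset_card_eq hSn
  have hJmem : ∀ y ∈ J, y ∈ J0 ∧ y ∉ K0 ∧ ∀ x ∈ K0, (G.Adj x y ↔ x ∈ S) := by
    intro y hy
    have := hJ hy
    rw [Finset.mem_filter, Finset.mem_sdiff] at this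
    refine ⟨this.1.1, this.1.2, fun x hx => ?_⟩
    rw [← this.2, Finset.mem_filter]
    exact ⟨fun e => ⟨hx, e⟩, fun e => e.2⟩
  have hJi : Indep G J := fun x hx y hy => hJ0 x (hJmem x hx).1 y (hJmem y hy).1
  have hcard : S.card + (K0 \ S).card = 2 * n := by
    rw [← hK0c, add_comm]
    exact Finset.card_sdiff_add_card_eq_card hS
  by_cases hSc : n ≤ S.card
  · obtain ⟨K, hK, hKc⟩ := Finset.exists_subset_card_eq hSc
    left
    refine ⟨K, J, hK0.mono (hK.trans hS), hKc, hJi, hJc, ?_⟩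
    intro x hx y hy
    exact ((hJmem y hy).2.2 x (hS (hK hx))).2 (hK hx)
  · have hSc' : n ≤ (K0 \ S).card := by omega
    obtain ⟨K, hK, hKc⟩ := Finset.exists_subset_card_eq hSc'
    right
    refine ⟨J, K, clq_compl.2 hJi, hJc,
      indep_compl.2 (hK0.mono (hK.trans Finset.sdiff_subset)), hKc, ?_⟩
    intro y hy x hx
    have hx1 := Finset.mem_sdiff.1 (hK hx)
    rw [SimpleGraph.compl_adj]
    refine ⟨?_, ?_⟩
    · rintro rfl
      exact (hJmem y hy).2.1 hx1.1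
    · intro e
      exact hx1.2 (((hJmem y hy).2.2 x hx1.1).1 e.symm)

/-- module U-D13: arbitrarily large `K_n * I_n` or `K_n + I_n`. -/
theorem join_or (h : DI G) :
    (∀ n : ℕ, ∃ K J : Finset V, Clq G K ∧ K.card = n ∧ Indep G J ∧ J.card = n ∧
      ∀ x ∈ K, ∀ y ∈ J, G.Adj x y) ∨
    (∀ n : ℕ, ∃ K J : Finset V, Clq Gᶜ K ∧ K.card = n ∧ Indep Gᶜ J ∧ J.card = n ∧
      ∀ x ∈ K, ∀ y ∈ J, Gᶜ.Adj x y) := by
  have mono : ∀ (H : SimpleGraph V) (m n : ℕ), m ≤ n →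
      (∃ K J : Finset V, Clq H K ∧ K.card = n ∧ Indep H J ∧ J.card = n ∧
        ∀ x ∈ K, ∀ y ∈ J, H.Adj x y) →
      ∃ K J : Finset V, Clq H K ∧ K.card = m ∧ Indep H J ∧ J.card = m ∧
        ∀ x ∈ K, ∀ y ∈ J, H.Adj x y := by
    rintro H m n hmn ⟨K, J, hK, hKc, hJ, hJc, hKJ⟩
    obtain ⟨K', hK', hKc'⟩ := Finset.exists_subset_card_eq (s := K) (n := m) (by omega)
    obtain ⟨J', hJ', hJc'⟩ := Finset.exists_subset_card_eq (s := J) (n := m) (by omega)
    exact ⟨K', J', hK.mono hK', hKc', hJ.sub hJ', hJc',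
      fun x hx y hy => hKJ x (hK' hx) y (hJ' hy)⟩
  by_cases h1 : ∀ n : ℕ, ∃ K J : Finset V, Clq G K ∧ K.card = n ∧ Indep G J ∧ J.card = n ∧
      ∀ x ∈ K, ∀ y ∈ J, G.Adj x y
  · exact Or.inl h1
  · right
    rw [not_forall] at h1
    obtain ⟨n0, hn0⟩ := h1
    intro n
    rcases d13_step h (max n n0) with h2 | h2
    · exact absurd (mono G n0 _ (le_max_right _ _) h2) hn0
    · exact mono Gᶜ n _ (le_max_left _ _) h2

end Un
end SetHom
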