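import Pool.Agent.Helper30.U.Defs2

/-!
# MP_506470_co, module U-A2: `sac_clique`
-/

namespace SetHom
namespace Un

theorem sac_clique {P : ∀ α : Type, SimpleGraph α → Set α → Prop} (h : SAC P)
    (h2 : InCl P 2) (h3 : ¬ InP3 P) (n : ℕ) : InCl P n := by
  classical
  induction n with
  | zero =>
    intro α A T hT hc hcl
    exact h2 α A T hT (by omega) hcl
  | succ n ih =>
    intro α A T hT hc hcl
    by_cases hn : T.ncard ≤ 2
    · exact h2 α A T hT hn hcl
    push Not at hn
    obtain ⟨z, a, b, hz, ha, hb, hza, hzb, hab⟩ := (Set.two_lt_ncard_iff hT).1 hn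
    have hfin : Finite T := hT
    -- transport to the subtype
    let A1 : SimpleGraph T := A.comap Subtype.val
    let A2 : SimpleGraph T := A1.deleteEdges {s(⟨a, ha⟩, ⟨b, hb⟩)}
    have hA1 : ∀ x y : T, A1.Adj x y ↔ A.Adj x.1 y.1 := fun x y => Iff.rfl
    have hclq : ∀ x y : T, x ≠ y → A1.Adj x y := fun x y hxy =>
      hcl x.1 x.2 y.1 y.2 (fun e => hxy (Subtype.ext e))
    have hA2 : ∀ x y : T, A2.Adj x y ↔ (A1.Adj x y ∧ s(x, y) ≠ s(⟨a, ha⟩, ⟨b, hb⟩)) := by
      intro x y
      rw [SimpleGraph.deleteEdges_adj]
      simp only [Set.mem_singleton_iff]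
    have hsub : ∀ c : T, P T A1 (Set.univ \ {c}) := by
      intro c
      refine ih T A1 _ (Set.toFinite _) ?_ (fun x _ y _ hxy => hclq x y hxy)
      rw [Set.ncard_sdiff (Set.subset_univ _) (Set.toFinite _), Set.ncard_singleton,
        Set.ncard_univ, Nat.card_coe_set_eq]
      omega
    have hap := h.ap T A1 A2 Set.univ ⟨a, ha⟩ ⟨b, hb⟩ (Set.mem_univ _) (Set.mem_univ _)
      (fun e => hab (congrArg Subtype.val e))
      (by
        intro x y h1 h2
        rw [hA2]
        constructor
        · intro h3
          refine ⟨h3, ?_⟩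
          intro e
          rw [Sym2.eq_iff] at e
          rcases e with ⟨e1, e2⟩ | ⟨e1, e2⟩
          · exact h1 ⟨e1, e2⟩
          · exact h2 ⟨e1, e2⟩
        · exact fun h3 => h3.1)
      (hclq _ _ (fun e => hab (congrArg Subtype.val e)))
      (by
        rw [hA2]
        exact fun e => e.2 rfl)
      (hsub _) (hsub _)
    rcases hap with hap | hap
    · refine h.comap T α A1 Set.univ A T (fun x => if hx : x ∈ T then ⟨x, hx⟩ else ⟨a, ha⟩) hap
        (fun _ _ => Set.mem_univ _) ?_ ?_
      · intro x hx y hy e
        simp only [hx, hy, dif_pos] at e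
        exact congrArg Subtype.val e
      · intro x hx y hy
        simp only [hx, hy, dif_pos, hA1]
    · exfalso
      apply h3
      intro β B x a' b' hxa hxb hab' hnab
      let g : β → T := fun y => if y = x then ⟨z, hz⟩ else if y = a' then ⟨a, ha⟩ else ⟨b, hb⟩
      have gx : g x = ⟨z, hz⟩ := if_pos rfl
      have hax : a' ≠ x := hxa.ne'
      have hbx : b' ≠ x := hxb.ne'
      have ga : g a' = ⟨a, ha⟩ := by
        show (if a' = x then _ else _) = _
        rw [if_neg hax, if_pos rfl]
      have gb : g b' = ⟨b, hb⟩ := by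
        show (if b' = x then _ else _) = _
        rw [if_neg hbx, if_neg hab'.symm]
      have kza : A2.Adj ⟨z, hz⟩ ⟨a, ha⟩ := by
        rw [hA2]
        refine ⟨hclq _ _ (fun e => hza (congrArg Subtype.val e)), ?_⟩
        intro e
        rw [Sym2.eq_iff] at e
        rcases e with ⟨e1, e2⟩ | ⟨e1, e2⟩
        · exact hza (congrArg Subtype.val e1)
        · exact hzb (congrArg Subtype.val e1)
      have kzb : A2.Adj ⟨z, hz⟩ ⟨b, hb⟩ := by
        rw [hA2]
        refine ⟨hclq _ _ (fun e => hzb (congrArg Subtype.val e)), ?_⟩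
        intro e
        rw [Sym2.eq_iff] at e
        rcases e with ⟨e1, e2⟩ | ⟨e1, e2⟩
        · exact hza (congrArg Subtype.val e1)
        · exact hzb (congrArg Subtype.val e1)
      have kab : ¬ A2.Adj ⟨a, ha⟩ ⟨b, hb⟩ := by
        rw [hA2]
        exact fun e => e.2 rfl
      have hmem : ∀ y ∈ ({x, a', b'} : Set β), y = x ∨ y = a' ∨ y = b' := fun y hy => hy
      refine h.comap T β A2 Set.univ B {x, a', b'} g hap (fun _ _ => Set.mem_univ _) ?_ ?_
      · intro y1 h1 y2 h2 e
        have e' := congrArg Subtype.val e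
        rcases hmem y1 h1 with rfl | rfl | rfl <;> rcases hmem y2 h2 with rfl | rfl | rfl <;>
          simp only [gx, ga, gb] at e' <;>
          first
          | rfl
          | exact absurd e' hza
          | exact absurd e' hzb
          | exact absurd e' hza.symm
          | exact absurd e' hab
          | exact absurd e' hzb.symm
          | exact absurd e' hab.symm
      · intro y1 h1 y2 h2
        rcases hmem y1 h1 with rfl | rfl | rfl <;> rcases hmem y2 h2 with rfl | rfl | rfl <;>
          simp only [gx, ga, gb]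
        · simp
        · exact iff_of_true hxa kza
        · exact iff_of_true hxb kzb
        · exact iff_of_true hxa.symm kza.symm
        · simp
        · exact iff_of_false hnab kab
        · exact iff_of_true hxb.symm kzb.symm
        · exact iff_of_false (fun e => hnab e.symm) (fun e => kab e.symm)
        · simp

end Un
end SetHom
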